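import Pool.Agent.H76.HR.Sec
import Pool.Agent.H9.AK.Twin

/-!
Highly ramified rings of integers modulo `p` (MP_d037d4_ag).
-/

noncomputable section

namespace Pool.HR

open Pool.H9.AK

section
variable {k R : Type} [Field k] [CommRing R] (σ : k →+* R) (w : R) (N : ℕ)

theorem eval_eq (hw : w ^ N = 0) (P : Polynomial k) :
    Polynomial.eval₂ σ w P = ∑ i ∈ Finset.range N, σ (P.coeff i) * w ^ i := by
  rw [Polynomial.eval₂_eq_sum_range' σ (n := max N (P.natDegree + 1))
    (lt_of_lt_of_le (Nat.lt_succ_self _) (le_max_right _ _))]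
  symm
  apply Finset.sum_subset
  · intro i hi
    rw [Finset.mem_range] at hi ⊢
    exact lt_of_lt_of_le hi (le_max_left _ _)
  · intro i _ hi
    rw [Finset.mem_range, not_lt] at hi
    rw [pow_eq_zero_of_le hi hw, mul_zero]

/-- Evaluation of power series at a nilpotent element. -/
def ev (hw : w ^ N = 0) : PowerSeries k →+* R where
  toFun f := ∑ i ∈ Finset.range N, σ (PowerSeries.coeff i f) * w ^ i
  map_one' := by
    have h := eval_eq σ w N hw 1
    rw [Polynomial.eval₂_one] at h
    rw [h]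
    apply Finset.sum_congr rfl
    intro i _
    rw [PowerSeries.coeff_one, Polynomial.coeff_one]
  map_zero' := by simp
  map_add' f g := by
    rw [← Finset.sum_add_distrib]
    apply Finset.sum_congr rfl
    intro i _
    rw [map_add, map_add, add_mul]
  map_mul' f g := by
    have h : ∀ u : PowerSeries k, ∑ i ∈ Finset.range N, σ (PowerSeries.coeff i u) * w ^ i =
        Polynomial.eval₂ σ w (PowerSeries.trunc N u) := by
      intro u
      rw [eval_eq σ w N hw]
      apply Finset.sum_congr rfl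
      intro i hi
      rw [PowerSeries.coeff_trunc, if_pos (Finset.mem_range.1 hi)]
    rw [h f, h g, ← Polynomial.eval₂_mul, eval_eq σ w N hw]
    apply Finset.sum_congr rfl
    intro i hi
    rw [PowerSeries.coeff_mul_eq_coeff_trunc_mul_trunc f g (Finset.mem_range.1 hi),
      ← Polynomial.coe_mul, Polynomial.coeff_coe]

theorem ev_apply (hw : w ^ N = 0) (f : PowerSeries k) :
    ev σ w N hw f = ∑ i ∈ Finset.range N, σ (PowerSeries.coeff i f) * w ^ i := rfl

theorem ev_poly (hw : w ^ N = 0) (P : Polynomial k) :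
    ev σ w N hw (P : PowerSeries k) = Polynomial.eval₂ σ w P := by
  rw [eval_eq σ w N hw, ev_apply]
  apply Finset.sum_congr rfl
  intro i _
  rw [Polynomial.coeff_coe]

theorem ev_X (hw : w ^ N = 0) : ev σ w N hw PowerSeries.X = w := by
  rw [← Polynomial.coe_X, ev_poly, Polynomial.eval₂_X]

theorem ev_C (hw : w ^ N = 0) (c : k) : ev σ w N hw (PowerSeries.C c) = σ c := by
  rw [← Polynomial.coe_C, ev_poly, Polynomial.eval₂_C]

theorem ev_surj (hw : w ^ N = 0) (π : R →+* k) (hσ : ∀ x, π (σ x) = x)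
    (hker : ∀ r, π r = 0 → ∃ s, r = w * s) : Function.Surjective (ev σ w N hw) := by
  intro r
  have key : ∀ j : ℕ, ∃ (f : PowerSeries k) (s : R), r = ev σ w N hw f + w ^ j * s := by
    intro j
    induction j with
    | zero => exact ⟨0, r, by rw [map_zero, zero_add, pow_zero, one_mul]⟩
    | succ j ih =>
      obtain ⟨f, s, hs⟩ := ih
      obtain ⟨u, hu⟩ := hker (s - σ (π s)) (by rw [map_sub, hσ, sub_self])
      refine ⟨f + PowerSeries.C (π s) * PowerSeries.X ^ j, u, ?_⟩
      rw [map_add, map_mul, map_pow, ev_X, ev_C, hs]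
      have h1 : s = σ (π s) + w * u := by rw [← hu]; ring
      conv_lhs => rw [h1]
      ring
  obtain ⟨f, s, hs⟩ := key N
  exact ⟨f, by rw [hs, hw, zero_mul, add_zero]⟩

theorem ev_ker (hw : w ^ N = 0) (hmin : ∀ m, w ^ m = 0 → N ≤ m) :
    RingHom.ker (ev σ w N hw) = Ideal.span {PowerSeries.X ^ N} := by
  apply le_antisymm
  · intro f hf
    rw [RingHom.mem_ker] at hf
    rw [Ideal.mem_span_singleton]
    by_cases h0 : f = 0
    · rw [h0]
      exact dvd_zero _
    · obtain ⟨m, u, hu⟩ := IsDiscreteValuationRing.eq_unit_mul_pow_irreducible h0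
        (PowerSeries.X_irreducible (R := k))
      have h1 : w ^ m = 0 := by
        rw [hu, map_mul, map_pow, ev_X] at hf
        have h2 : IsUnit (ev σ w N hw (u : PowerSeries k)) := u.isUnit.map _
        exact (h2.mul_right_eq_zero).1 hf
      rw [hu]
      exact Dvd.dvd.mul_left (pow_dvd_pow _ (hmin m h1)) _
  · rw [Ideal.span_singleton_le_iff_mem, RingHom.mem_ker, map_pow, ev_X, hw]

end

/-- If `p` is divisible by the `N`-th power of the maximal ideal, the quotient by this power is the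
ring of truncated power series over the residue field. -/
theorem coef (L : LF) (N : ℕ) (hN : 0 < N)
    (hp : ((ringChar L.k : ℕ) : L.O) ∈ IsLocalRing.maximalIdeal L.O ^ N) :
    ∃ θ : PowerSeries L.k →+* L.O ⧸ IsLocalRing.maximalIdeal L.O ^ N,
      Function.Surjective θ ∧ RingHom.ker θ = Ideal.span {PowerSeries.X ^ N} := by
  obtain ⟨ϖ, hϖ⟩ := IsDiscreteValuationRing.exists_irreducible L.O
  have hm : IsLocalRing.maximalIdeal L.O = Ideal.span {ϖ} := hϖ.maximalIdeal_eq
  let π : L.O ⧸ IsLocalRing.maximalIdeal L.O ^ N →+* L.k :=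
    Ideal.Quotient.factor (Ideal.pow_le_self hN.ne')
  have hπmk : ∀ x, π (Ideal.Quotient.mk _ x) = IsLocalRing.residue L.O x := fun x => rfl
  have hπ : Function.Surjective π := by
    intro x
    obtain ⟨y, rfl⟩ := IsLocalRing.residue_surjective x
    exact ⟨Ideal.Quotient.mk _ y, rfl⟩
  let w : L.O ⧸ IsLocalRing.maximalIdeal L.O ^ N := Ideal.Quotient.mk _ ϖ
  have hw : ∀ m, w ^ m = 0 ↔ N ≤ m := by
    intro m
    rw [← map_pow, Ideal.Quotient.eq_zero_iff_mem, hm, Ideal.span_singleton_pow,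
      Ideal.mem_span_singleton]
    exact pow_dvd_pow_iff hϖ.ne_zero hϖ.not_isUnit
  have hker : ∀ r, π r = 0 → ∃ s, r = w * s := by
    intro r hr
    obtain ⟨y, rfl⟩ := Ideal.Quotient.mk_surjective r
    rw [hπmk, IsLocalRing.residue_eq_zero_iff, hm, Ideal.mem_span_singleton] at hr
    obtain ⟨z, rfl⟩ := hr
    exact ⟨Ideal.Quotient.mk _ z, map_mul _ _ _⟩
  have hn : IsNilpotent (RingHom.ker π) := by
    refine ⟨N, ?_⟩
    have h1 : RingHom.ker π ≤ Ideal.span {w} := by
      intro r hr
      obtain ⟨s, rfl⟩ := hker r hr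
      exact Ideal.mul_mem_right _ _ (Ideal.mem_span_singleton_self w)
    have h2 := Ideal.pow_right_mono h1 N
    rw [Ideal.span_singleton_pow, (hw N).2 le_rfl] at h2
    rw [Ideal.zero_eq_bot]
    exact le_bot_iff.1 (h2.trans (by rw [Ideal.span_singleton_eq_bot.2 rfl]))
  have hp' : ((ringChar L.k : ℕ) : L.O ⧸ IsLocalRing.maximalIdeal L.O ^ N) = 0 := by
    rw [← map_natCast (Ideal.Quotient.mk (IsLocalRing.maximalIdeal L.O ^ N)),
      Ideal.Quotient.eq_zero_iff_mem]
    exact hp
  have hfin : Module.Finite ℤ L.k := Module.Finite.of_finite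
  obtain ⟨σ, hσ⟩ := sec π hπ hn (ringChar L.k) hp'
  exact ⟨ev σ w N ((hw N).2 le_rfl), ev_surj σ w N _ π hσ hker,
    ev_ker σ w N _ fun m h => (hw m).1 h⟩

end Pool.HR

end
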