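import Pool.Agent.H9.AK.Sch

/-!
Models over rings of integers of local fields (MP_d037d4_ag).
-/

noncomputable section

namespace Pool.HR

open CategoryTheory CategoryTheory.Limits AlgebraicGeometry Pool.H9.WMC Pool.H9.AK

/-- A smooth fibre of a proper morphism. -/
def fibre {S X : Scheme.{0}} (f : X ⟶ S) [IsProper f] {R : Type} [CommRing R]
    (s : Spec (CommRingCat.of R) ⟶ S) (h : Smooth (pullback.snd f s)) : Fam R where
  X := pullback f s
  f := pullback.snd f s
  smooth := h
  proper := inferInstance

/-- The spectrum of the local field. -/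
abbrev _root_.Pool.H9.AK.LF.SK (L : LF) : Scheme.{0} := Spec (CommRingCat.of L.K)

/-- The spectrum of the ring of integers. -/
abbrev _root_.Pool.H9.AK.LF.SO (L : LF) : Scheme.{0} := Spec (CommRingCat.of L.O)

/-- The residue characteristic. -/
def _root_.Pool.H9.AK.LF.p (L : LF) : ℕ := ringChar L.k

/-- The ramification index is at least `e`: the residue characteristic belongs to the `e`-th power of
the maximal ideal. -/
def _root_.Pool.H9.AK.LF.Ram (L : LF) (e : ℕ) : Prop :=
  (L.p : L.O) ∈ IsLocalRing.maximalIdeal L.O ^ e

/-- The inclusion of the generic point. -/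
def _root_.Pool.H9.AK.LF.gen (L : LF) : L.SK ⟶ L.SO :=
  Spec.map (CommRingCat.ofHom (algebraMap L.O L.K))

/-- The fibre at a point with values in a local field. -/
def fibreK {S X : Scheme.{0}} (f : X ⟶ S) [IsProper f] {L : LF}
    (s : L.SK ⟶ S) (h : Smooth (pullback.snd f s)) : Fam L.K := fibre f s h

/-- A model: a flat proper scheme over the ring of integers of a local field. -/
structure Mod (L : LF) where
  /-- The total space. -/
  X : Scheme.{0}
  /-- The structure morphism. -/
  f : X ⟶ L.SO
  flat : Flat f
  proper : IsProper f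

attribute [instance] Mod.flat Mod.proper

/-- The pull back of a flat proper morphism to the ring of integers of a local field. -/
def Mod.of {S X : Scheme.{0}} (f : X ⟶ S) [Flat f] [IsProper f] {L : LF}
    (s : L.SO ⟶ S) : Mod L where
  X := pullback f s
  f := pullback.snd f s
  flat := inferInstance
  proper := inferInstance

/-- The generic fibre is smooth. -/
def Mod.GenSmooth {L : LF} (Y : Mod L) : Prop := Smooth (pullback.snd Y.f L.gen)

/-- The generic fibre, if it is smooth. -/
def Mod.gen {L : LF} (Y : Mod L) (h : Y.GenSmooth) : Fam L.K := fibreK Y.f L.gen h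

/-- The ideal generated by `∏ i ∈ I, T_i - ϖ`. -/
def stdIdeal (L : LF) (ϖ : L.O) (n : ℕ) (I : Finset (Fin n)) : Ideal (MvPolynomial (Fin n) L.O) :=
  Ideal.span {∏ i ∈ I, MvPolynomial.X i - MvPolynomial.C ϖ}

/-- The spectrum of `O[T_1, ..., T_n] / (∏ i ∈ I, T_i - ϖ)`, as a scheme over the spectrum of
`O`. -/
def stdSch (L : LF) (ϖ : L.O) (n : ℕ) (I : Finset (Fin n)) : Over L.SO :=
  Over.mk (Spec.map (CommRingCat.ofHom
    (algebraMap L.O (MvPolynomial (Fin n) L.O ⧸ stdIdeal L ϖ n I))))

/-- The point `x` has an open neighbourhood which is étale over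
`O[T_1, ..., T_n] / (∏ i ∈ I, T_i - ϖ)` for some `n` and `I`. -/
def Mod.StdAt {L : LF} (Y : Mod L) (ϖ : L.O) (x : Y.X) : Prop :=
  ∃ (n : ℕ) (I : Finset (Fin n)) (U : Scheme.{0}) (j : U ⟶ Y.X) (u : U ⟶ (stdSch L ϖ n I).left),
    IsOpenImmersion j ∧ x ∈ Set.range j ∧ Etale u ∧ j ≫ Y.f = u ≫ (stdSch L ϖ n I).hom

/-- The model is strictly semistable: every point has an open neighbourhood which is étale over
`O[T_1, ..., T_n] / (∏ i ∈ I, T_i - ϖ)`, where `ϖ` is a prime element of the ring of integers `O`
and `I` is a set of indices. -/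
def Mod.Semistable {L : LF} (Y : Mod L) : Prop :=
  ∃ ϖ : L.O, Irreducible ϖ ∧ ∀ x : Y.X, Y.StdAt ϖ x

/-- The base change of a model, as a scheme over `Q`. -/
def Mod.over {L : LF} (Y : Mod L) {Q : Type} [CommRing Q] (ρ : L.O →+* Q) :
    Over (Spec (CommRingCat.of Q)) :=
  Over.mk (pullback.snd Y.f (Spec.map (CommRingCat.ofHom ρ)))

/-- `Q` is the quotient of the ring of integers by the square of the maximal ideal. -/
def IsQuo (L : LF) {Q : Type} [CommRing Q] (ρ : L.O →+* Q) : Prop :=
  Function.Surjective ρ ∧ RingHom.ker ρ = IsLocalRing.maximalIdeal L.O ^ 2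

/-- Two models are congruent modulo the square of the maximal ideal: there is a ring `Q`, the
quotient of both rings of integers by the square of the maximal ideal, and the two models become
isomorphic over `Q`. -/
def Mod.Congr {L L' : LF} (Y : Mod L) (Y' : Mod L') : Prop :=
  ∃ (Q : Type) (_ : CommRing Q) (ρ : L.O →+* Q) (ρ' : L'.O →+* Q),
    IsQuo L ρ ∧ IsQuo L' ρ' ∧ Nonempty (Y.over ρ ≅ Y'.over ρ')

/-- The cohomology of the generic fibre of a strictly semistable model depends only on the model
modulo the square of the maximal ideal.  This is a known fact for the `p`-adic cohomology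
(Hyodo and Kato): if a flat proper model is congruent to a strictly semistable model modulo the
square of the maximal ideal, it is strictly semistable, with the same special fibre as a logarithmic
scheme, and the cohomology of the generic fibre is the logarithmic crystalline cohomology of this
logarithmic scheme. -/
def HyodoKato {Ω : Type} [Field Ω] [CharZero Ω] (T : Theory Ω) : Prop :=
  ∀ (L L' : LF) (Y : Mod L) (Y' : Mod L'), Y.Semistable → Y.Congr Y' →
    ∃ (h : Y.GenSmooth) (h' : Y'.GenSmooth),
      ∀ i : ℕ, FN.Sim (T.H L (Y.gen h) i) (T.H L' (Y'.gen h') i)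

/-- The point `s` of `S` with values in the local field extends to a point with values in the ring of
integers whose fibre is strictly semistable. -/
def SemistableAt {S X : Scheme.{0}} (f : X ⟶ S) [Flat f] [IsProper f] {L : LF}
    (s : L.SK ⟶ S) : Prop :=
  ∃ σ : L.SO ⟶ S, L.gen ≫ σ = s ∧ (Mod.of f σ).Semistable

/-- There are a finite field `k` of the same characteristic as the residue field of `L` and a smooth
fibre of `f` over the field of Laurent series over `k` with the cohomology of `Y`, up to powers of
the Frobenius maps and a multiple of the monodromy operator. -/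
def Twinned {Ω : Type} [Field Ω] [CharZero Ω] (T : Theory Ω) {S X : Scheme.{0}} (f : X ⟶ S)
    [IsProper f] (L : LF) (Y : Fam L.K) : Prop :=
  ∃ (k : Type) (_ : Field k) (_ : Finite k) (s' : (LF.pow k).SK ⟶ S)
    (h' : Smooth (pullback.snd f s')), ringChar k = L.p ∧
    ∀ i : ℕ, FN.Sim (T.H L Y i) (T.H (LF.pow k) (fibreK f s' h') i)

end Pool.HR

end
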