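import Pool.Agent.H87.HR.Greenberg
import Pool.Agent.H76.HR.Coef
import Pool.Agent.H76.HR.Defs

/-!
Strictly semistable models over highly ramified rings of integers (MP_d037d4_ag).
-/

noncomputable section

namespace Pool.HR

open CategoryTheory CategoryTheory.Limits AlgebraicGeometry Pool.H9.WMC Pool.H9.AK

/-- Greenberg's theorem for rings of finite type over the integers. -/
theorem appr_ring (A : Type) [CommRing A] [Algebra.FiniteType ℤ A] (ν : ℕ) :
    ∃ N : ℕ, ν ≤ N ∧ ∀ (k : Type) [Field k] (Q : Type) [CommRing Q] (θ : PowerSeries k →+* Q),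
      Function.Surjective θ → RingHom.ker θ = Ideal.span {PowerSeries.X ^ N} →
      ∀ x : A →+* Q, ∃ y : A →+* PowerSeries k,
        ∀ a, θ (y a) - x a ∈ Ideal.span {θ (PowerSeries.X ^ ν)} := by
  obtain ⟨n, π, hπ⟩ := Algebra.FiniteType.iff_quotient_mvPolynomial''.1
    (inferInstance : Algebra.FiniteType ℤ A)
  obtain ⟨N, hN⟩ := Pool.H87.HR.greenberg_of_star Pool.H87.HR.starStmt ν (RingHom.ker π.toRingHom)
  refine ⟨max N ν, le_max_right _ _, fun k _ Q _ θ hθ hker x => ?_⟩
  have h1 : ∀ j : Fin n, ∃ ξ, θ ξ = x (π (MvPolynomial.X j)) := fun j => hθ _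
  choose ξ hξ using h1
  have h2 : ∀ f, θ (Pool.H87.HR.ev ξ f) = x (π f) := by
    intro f
    have h3 : θ.comp (Pool.H87.HR.ev ξ).toRingHom = x.comp π.toRingHom := by
      apply MvPolynomial.ringHom_ext
      · intro z
        simp
      · intro j
        simpa using hξ j
    exact congrArg (fun g => g f) h3
  obtain ⟨y, hy1, hy2⟩ := hN k ξ (fun a ha => (pow_dvd_pow _ (le_max_left N ν)).trans (by
    rw [← Ideal.mem_span_singleton, ← hker, RingHom.mem_ker, h2]
    have h4 : π a = 0 := ha
    rw [h4, map_zero]))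
  let g : A →+* PowerSeries k := (π.toRingHom).liftOfSurjective hπ
    ⟨(Pool.H87.HR.ev y).toRingHom, by
      intro a ha
      exact hy1 a ha⟩
  have hg : ∀ f, g (π f) = Pool.H87.HR.ev y f := fun f =>
    RingHom.liftOfRightInverse_comp_apply _ _ _ _ _
  refine ⟨g, fun a => ?_⟩
  obtain ⟨f, rfl⟩ := hπ a
  rw [hg, ← h2, ← map_sub]
  obtain ⟨r, hr⟩ := Pool.H87.HR.ev_congr (e := ν) ξ y hy2 f
  rw [hr, map_mul]
  exact Ideal.mul_mem_right _ _ (Ideal.mem_span_singleton_self _)

/-- Points with values in a highly ramified ring of integers are congruent to points with values in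
a power series ring. -/
theorem aff (A : Type) [CommRing A] [Algebra.FiniteType ℤ A] : ∃ N : ℕ, ∀ L : LF,
    ((ringChar L.k : ℕ) : L.O) ∈ IsLocalRing.maximalIdeal L.O ^ N → ∀ φ : A →+* L.O,
      ∃ (y : A →+* PowerSeries L.k)
        (ρ : PowerSeries L.k →+* L.O ⧸ IsLocalRing.maximalIdeal L.O ^ 2),
        Function.Surjective ρ ∧ RingHom.ker ρ = Ideal.span {PowerSeries.X ^ 2} ∧
        ∀ a, ρ (y a) = Ideal.Quotient.mk _ (φ a) := by
  obtain ⟨N, h2N, hN⟩ := appr_ring A 2
  refine ⟨N, fun L hp φ => ?_⟩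
  obtain ⟨θ, hθ, hker⟩ := coef L N (by omega) hp
  obtain ⟨y, hy⟩ := hN L.k (L.O ⧸ IsLocalRing.maximalIdeal L.O ^ N) θ hθ hker
    ((Ideal.Quotient.mk _).comp φ)
  let F : L.O ⧸ IsLocalRing.maximalIdeal L.O ^ N →+* L.O ⧸ IsLocalRing.maximalIdeal L.O ^ 2 :=
    Ideal.Quotient.factor (Ideal.pow_le_pow_right h2N)
  have hF : ∀ z, F (Ideal.Quotient.mk _ z) = Ideal.Quotient.mk _ z := fun z => rfl
  obtain ⟨z, hz⟩ := Ideal.Quotient.mk_surjective (θ PowerSeries.X)
  have hzm : z ∈ IsLocalRing.maximalIdeal L.O := by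
    have h1 : θ (PowerSeries.X ^ N) = 0 := by
      rw [← RingHom.mem_ker, hker]
      exact Ideal.mem_span_singleton_self _
    rw [map_pow, ← hz, ← map_pow, Ideal.Quotient.eq_zero_iff_mem] at h1
    exact (IsLocalRing.maximalIdeal.isMaximal L.O).isPrime.mem_of_pow_mem N
      (Ideal.pow_le_self (by omega) h1)
  have hX : F (θ (PowerSeries.X ^ 2)) = 0 := by
    rw [map_pow, map_pow, ← hz, hF, ← map_pow, Ideal.Quotient.eq_zero_iff_mem]
    exact Ideal.pow_mem_pow hzm 2
  obtain ⟨ϖ, hϖ⟩ := IsDiscreteValuationRing.exists_irreducible L.O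
  have hm : IsLocalRing.maximalIdeal L.O = Ideal.span {ϖ} := hϖ.maximalIdeal_eq
  have hFs : Function.Surjective F := Ideal.Quotient.factor_surjective _
  refine ⟨y, F.comp θ, hFs.comp hθ, le_antisymm ?_ ?_, fun a => ?_⟩
  · intro f hf
    rw [RingHom.mem_ker, RingHom.comp_apply] at hf
    rw [Ideal.mem_span_singleton]
    by_cases h0 : f = 0
    · rw [h0]
      exact dvd_zero _
    · obtain ⟨m, u, hu⟩ := IsDiscreteValuationRing.eq_unit_mul_pow_irreducible h0
        (PowerSeries.X_irreducible (R := L.k))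
      by_contra hnd
      have hm2 : m ≤ 1 := by
        by_contra h3
        refine hnd ?_
        rw [hu]
        exact Dvd.dvd.mul_left (pow_dvd_pow _ (by omega)) _
      have hX1 : F (θ PowerSeries.X) = 0 := by
        rw [hu, map_mul, map_mul] at hf
        have h2 : IsUnit (F (θ (u : PowerSeries L.k))) := (u.isUnit.map θ).map F
        have h3 : F (θ (PowerSeries.X ^ m)) = 0 := (h2.mul_right_eq_zero).1 hf
        have h4 : (PowerSeries.X : PowerSeries L.k) = PowerSeries.X ^ m *
            PowerSeries.X ^ (1 - m) := by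
          rw [← pow_add, Nat.add_sub_cancel' hm2, pow_one]
        rw [h4, map_mul, map_mul, h3, zero_mul]
      obtain ⟨g, hg⟩ := (hFs.comp hθ) (Ideal.Quotient.mk _ ϖ)
      have h5 : g = PowerSeries.C (PowerSeries.constantCoeff g) +
          PowerSeries.X * (PowerSeries.mk fun n => PowerSeries.coeff (n + 1) g) := by
        conv_lhs => rw [PowerSeries.eq_X_mul_shift_add_const g]
        rw [add_comm]
      have h6 : Ideal.Quotient.mk (IsLocalRing.maximalIdeal L.O ^ 2) ϖ =
          F (θ (PowerSeries.C (PowerSeries.constantCoeff g))) := by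
        rw [← hg]
        conv_lhs => rw [h5]
        rw [Function.comp_apply, map_add, map_add, map_mul, map_mul, hX1, zero_mul, add_zero]
      by_cases hc : PowerSeries.constantCoeff g = 0
      · rw [hc, map_zero, map_zero, map_zero, Ideal.Quotient.eq_zero_iff_mem, hm,
          Ideal.span_singleton_pow, Ideal.mem_span_singleton] at h6
        have h7 := (pow_dvd_pow_iff hϖ.ne_zero hϖ.not_isUnit (n := 2) (m := 1)).1 (by
          rwa [pow_one])
        omega
      · have h7 : IsUnit (Ideal.Quotient.mk (IsLocalRing.maximalIdeal L.O ^ 2) ϖ) := by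
          rw [h6]
          exact (((isUnit_iff_ne_zero.2 hc).map PowerSeries.C).map θ).map F
        have h8 : IsUnit (Ideal.Quotient.factor (Ideal.pow_le_self (n := 2) (by norm_num) :
            IsLocalRing.maximalIdeal L.O ^ 2 ≤ IsLocalRing.maximalIdeal L.O)
            (Ideal.Quotient.mk (IsLocalRing.maximalIdeal L.O ^ 2) ϖ)) := h7.map _
        have h9 : IsUnit (IsLocalRing.residue L.O ϖ) := h8
        have h10 : IsLocalRing.residue L.O ϖ = 0 := by
          rw [IsLocalRing.residue_eq_zero_iff, hm]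
          exact Ideal.mem_span_singleton_self ϖ
        rw [h10] at h9
        exact not_isUnit_zero h9
  · rw [Ideal.span_singleton_le_iff_mem, RingHom.mem_ker]
    exact hX
  · have h1 := hy a
    obtain ⟨c, hc⟩ := Ideal.mem_span_singleton.1 h1
    have h2 : θ (y a) = Ideal.Quotient.mk _ (φ a) + θ (PowerSeries.X ^ 2) * c := by
      rw [← hc]
      simp
    rw [RingHom.comp_apply, h2, map_add, map_mul, hX, zero_mul, add_zero]
    rfl

end Pool.HR

end
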