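import Pool.Agent.H76.HR.Main

/-!
Strictly semistable models in a family over highly ramified rings of integers (MP_d037d4_ag).
-/

noncomputable section

namespace Pool.HR

open CategoryTheory CategoryTheory.Limits AlgebraicGeometry Pool.H9.WMC Pool.H9.AK

/-- A morphism from the spectrum of a local ring whose closed point lands in an open subscheme
factors through it. -/
theorem lift_local {S U : Scheme.{0}} (j : U ⟶ S) [IsOpenImmersion j] {R : Type} [CommRing R]
    [IsLocalRing R] (s : Spec (CommRingCat.of R) ⟶ S)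
    (h : s (IsLocalRing.closedPoint R) ∈ Set.range j) :
    ∃ t : Spec (CommRingCat.of R) ⟶ U, t ≫ j = s := by
  refine ⟨IsOpenImmersion.lift j s ?_, IsOpenImmersion.lift_fac j s _⟩
  rintro _ ⟨x, rfl⟩
  have h1 : IsOpen (s ⁻¹' Set.range j) := j.opensRange.2.preimage s.continuous
  have h2 : x ⤳ IsLocalRing.closedPoint R := IsLocalRing.specializes_closedPoint x
  exact h2.mem_open h1 h

theorem closed_point_exists {S : Scheme.{0}} [CompactSpace S]
    (g : S ⟶ Spec (CommRingCat.of ℤ)) [LocallyOfFiniteType g] :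
    ∃ (J : Type) (_ : Fintype J) (R : J → Type) (_ : ∀ i, CommRing (R i))
      (j : ∀ i, Spec (CommRingCat.of (R i)) ⟶ S), (∀ i, IsOpenImmersion (j i)) ∧
      (∀ i, Algebra.FiniteType ℤ (R i)) ∧ ∀ x : S, ∃ i, x ∈ Set.range (j i) := by
  let 𝒰 := S.affineCover.finiteSubcover
  have hA : ∀ i : 𝒰.I₀, IsAffine (𝒰.X i) := fun i => inferInstance
  let R : 𝒰.I₀ → CommRingCat := fun i => Γ(𝒰.X i, ⊤)
  let j : ∀ i : 𝒰.I₀, Spec (CommRingCat.of (R i)) ⟶ S := fun i => (𝒰.X i).isoSpec.inv ≫ 𝒰.f i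
  refine ⟨𝒰.I₀, inferInstance, fun i => R i, fun i => inferInstance, j, fun i => ?_, fun i => ?_,
    fun x => ?_⟩
  · change IsOpenImmersion ((𝒰.X i).isoSpec.inv ≫ 𝒰.f i)
    infer_instance
  · have h1 : LocallyOfFiniteType (j i ≫ g) := by
      change LocallyOfFiniteType (((𝒰.X i).isoSpec.inv ≫ 𝒰.f i) ≫ g)
      infer_instance
    exact finiteType_int (j i ≫ g)
  · obtain ⟨i, y, hy⟩ := 𝒰.exists_eq x
    refine ⟨i, (𝒰.X i).isoSpec.hom y, ?_⟩
    rw [← hy]
    change ((𝒰.X i).isoSpec.hom ≫ (𝒰.X i).isoSpec.inv ≫ 𝒰.f i) y = _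
    rw [Iso.hom_inv_id_assoc]

/-- For `f : X ⟶ S` flat and proper, `S` of finite type over the integers, every model
`X_s` over a highly ramified ring of integers is congruent to a model `X_s'` over a power series
ring. -/
theorem congr_sch {S X : Scheme.{0}} (f : X ⟶ S) [Flat f] [IsProper f]
    (g : S ⟶ Spec (CommRingCat.of ℤ)) [CompactSpace S] [LocallyOfFiniteType g] :
    ∃ e : ℕ, ∀ L : LF, L.Ram e → ∀ s : L.SO ⟶ S,
      ∃ s' : (LF.pow L.k).SO ⟶ S, (Mod.of f s).Congr (Mod.of f s') := by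
  classical
  obtain ⟨J, _, R, _, j, hj, hR, hcov⟩ := closed_point_exists g
  choose N hN using fun i => aff (R i)
  refine ⟨Finset.univ.sup N, fun L hp s => ?_⟩
  obtain ⟨i, hi⟩ := hcov (s (IsLocalRing.closedPoint L.O))
  have := hj i
  obtain ⟨t, ht⟩ := lift_local (j i) s hi
  obtain ⟨φ, rfl⟩ := Spec.map_surjective t
  obtain ⟨y, ρ, hρ, hker, hy⟩ := hN i L
    (Ideal.pow_le_pow_right (Finset.le_sup (f := N) (Finset.mem_univ i)) hp) φ.hom
  let y' : R i →+* (LF.pow L.k).O := y
  let ρ' : (LF.pow L.k).O →+* L.O ⧸ IsLocalRing.maximalIdeal L.O ^ 2 := ρ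
  let s' : Spec (CommRingCat.of (LF.pow L.k).O) ⟶ S := Spec.map (CommRingCat.ofHom y') ≫ j i
  refine ⟨s', L.O ⧸ IsLocalRing.maximalIdeal L.O ^ 2, inferInstance, Ideal.Quotient.mk _, ρ',
    ⟨Ideal.Quotient.mk_surjective, Ideal.mk_ker⟩, ⟨hρ, ?_⟩, ?_⟩
  · have h1 : IsLocalRing.maximalIdeal (PowerSeries L.k) ^ 2 = Ideal.span {PowerSeries.X ^ 2} := by
      rw [PowerSeries.maximalIdeal_eq_span_X, Ideal.span_singleton_pow]
    exact hker.trans h1.symm
  · let r : Spec (CommRingCat.of (L.O ⧸ IsLocalRing.maximalIdeal L.O ^ 2)) ⟶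
        Spec (CommRingCat.of L.O) := Spec.map (CommRingCat.ofHom (Ideal.Quotient.mk _))
    let r' : Spec (CommRingCat.of (L.O ⧸ IsLocalRing.maximalIdeal L.O ^ 2)) ⟶
        Spec (CommRingCat.of (LF.pow L.k).O) := Spec.map (CommRingCat.ofHom ρ')
    have hrs : r ≫ s = r' ≫ s' := by
      have h1 : (Ideal.Quotient.mk (IsLocalRing.maximalIdeal L.O ^ 2)).comp φ.hom = ρ'.comp y' := by
        ext a
        exact (hy a).symm
      have h2 : r ≫ Spec.map φ = r' ≫ Spec.map (CommRingCat.ofHom y') := by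
        have h3 : Spec.map (CommRingCat.ofHom
            ((Ideal.Quotient.mk (IsLocalRing.maximalIdeal L.O ^ 2)).comp φ.hom)) =
            Spec.map (CommRingCat.ofHom (ρ'.comp y')) := by rw [h1]
        have h4 : r ≫ Spec.map φ = Spec.map (CommRingCat.ofHom
            ((Ideal.Quotient.mk (IsLocalRing.maximalIdeal L.O ^ 2)).comp φ.hom)) := by
          rw [← Spec.map_comp]
          rfl
        have h5 : r' ≫ Spec.map (CommRingCat.ofHom y') =
            Spec.map (CommRingCat.ofHom (ρ'.comp y')) := by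
          rw [← Spec.map_comp]
          rfl
        rw [h4, h5, h3]
      rw [← ht, ← Category.assoc, h2, Category.assoc]
    refine ⟨Over.isoMk (pullbackLeftPullbackSndIso f s r ≪≫ pullback.congrHom rfl hrs ≪≫
      (pullbackLeftPullbackSndIso f s' r').symm) ?_⟩
    have h6 : (pullbackLeftPullbackSndIso f s' r').inv ≫ pullback.snd (pullback.snd f s') r' =
        pullback.snd f (r' ≫ s') := 
        pullbackLeftPullbackSndIso_inv_snd_snd f s' r'
    have h7 : (pullbackLeftPullbackSndIso f s r).hom ≫ pullback.snd f (r ≫ s) =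
        pullback.snd (pullback.snd f s) r := pullbackLeftPullbackSndIso_hom_snd f s r
    have h8 : (pullback.congrHom (rfl : f = f) hrs).hom ≫ pullback.snd f (r' ≫ s') =
        pullback.snd f (r ≫ s) := by
      rw [pullback.congrHom_hom, pullback.lift_snd, Category.comp_id]
    simp only [Iso.trans_hom, Iso.symm_hom, Category.assoc]
    change (pullbackLeftPullbackSndIso f s r).hom ≫ (pullback.congrHom (rfl : f = f) hrs).hom ≫
      (pullbackLeftPullbackSndIso f s' r').inv ≫ pullback.snd (pullback.snd f s') r' =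
        pullback.snd (pullback.snd f s) r
    rw [h6, h8, h7]

/-- Weight-monodromy for strictly semistable models in a family over highly ramified rings of
integers. -/
theorem hr {Ω : Type} [Field Ω] [CharZero Ω] [IsAlgClosed Ω] (T : Theory Ω) (hT : HyodoKato T)
    {S X : Scheme.{0}} (f : X ⟶ S) [Flat f] [IsProper f]
    (g : S ⟶ Spec (CommRingCat.of ℤ)) [CompactSpace S] [LocallyOfFiniteType g] :
    ∃ e : ℕ, ∀ L : LF, L.Ram e →
      ∀ s : L.SO ⟶ S, (Mod.of f s).Semistable →
        ∃ h : (Mod.of f s).GenSmooth, (∀ i : ℕ, (T.H L ((Mod.of f s).gen h) i).WM i) ∧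
          ∃ (s' : (LF.pow L.k).SO ⟶ S) (h' : (Mod.of f s').GenSmooth),
            (Mod.of f s).Congr (Mod.of f s') ∧
            ∀ i : ℕ, FN.Sim (T.H L ((Mod.of f s).gen h) i)
              (T.H (LF.pow L.k) ((Mod.of f s').gen h') i) := by
  obtain ⟨e, he⟩ := congr_sch f g
  refine ⟨e, fun L hp s hs => ?_⟩
  obtain ⟨s', hc⟩ := he L hp s
  obtain ⟨h, h', hsim⟩ := hT L (LF.pow L.k) _ _ hs hc
  refine ⟨h, fun i => ?_, s', h', hc, hsim⟩
  refine (hsim i).wm L.one_lt_q (LF.pow L.k).one_lt_q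
    (T.equal (LF.pow L.k) (ringChar L.k) ?_ ?_ _ i)
  · exact CharP.char_is_prime L.k (ringChar L.k)
  · have h5 : ((ringChar L.k : ℕ) : PowerSeries L.k) = 0 := by
      rw [← map_natCast (PowerSeries.C (R := L.k)), ringChar.Nat.cast_ringChar, map_zero]
    exact h5

end Pool.HR

end
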