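import Mathlib

/-!
Coefficient fields of nilpotent thickenings of fields of finite type over the integers
(MP_d037d4_ag).
-/

noncomputable section

namespace Pool.HR

theorem isUnit_of_ker {E κ : Type} [CommRing E] [Field κ] (π : E →+* κ)
    (hπ : Function.Surjective π) (hn : IsNilpotent (RingHom.ker π)) {x : E} (hx : π x ≠ 0) :
    IsUnit x := by
  obtain ⟨y, hy⟩ := hπ (π x)⁻¹
  have h1 : x * y - 1 ∈ RingHom.ker π := by
    rw [RingHom.mem_ker, map_sub, map_mul, map_one, hy, mul_inv_cancel₀ hx, sub_self]
  obtain ⟨n, hn⟩ := hn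
  have h2 : IsNilpotent (x * y - 1) := by
    refine ⟨n, ?_⟩
    have h3 := Ideal.pow_mem_pow h1 n
    rw [hn] at h3
    exact h3
  have h3 : IsUnit (x * y) := by
    have h4 := h2.isUnit_add_one
    rwa [sub_add_cancel] at h4
  exact isUnit_of_mul_isUnit_left h3

/-- A field of finite type (as a field) has a section over nilpotent thickenings which are algebras
over its prime field. -/
theorem sec {E κ : Type} [CommRing E] [Field κ] [Algebra.EssFiniteType ℤ κ] (π : E →+* κ)
    (hπ : Function.Surjective π) (hn : IsNilpotent (RingHom.ker π)) (p : ℕ) [CharP κ p]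
    (hp : (p : E) = 0) : ∃ σ : κ →+* E, ∀ x, π (σ x) = x := by
  rcases CharP.char_is_prime_or_zero κ p with h | h
  · have : Fact p.Prime := ⟨h⟩
    have : CharP E p := by
      refine ⟨fun n => ⟨fun h1 => ?_, fun h1 => ?_⟩⟩
      · have h2 := congrArg π h1
        rw [map_natCast, map_zero] at h2
        exact (CharP.cast_eq_zero_iff κ p n).1 h2
      · obtain ⟨m, rfl⟩ := h1
        rw [Nat.cast_mul, hp, zero_mul]
    let _ : Algebra (ZMod p) κ := ZMod.algebra κ p
    let _ : Algebra (ZMod p) E := ZMod.algebra E p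
    have : Algebra.EssFiniteType (ZMod p) κ := Algebra.EssFiniteType.of_comp ℤ (ZMod p) κ
    let g : E →ₐ[ZMod p] κ :=
      { π with
        commutes' := fun r => congrArg (fun u : ZMod p →+* κ => u r)
          (Subsingleton.elim (π.comp (algebraMap (ZMod p) E)) (algebraMap (ZMod p) κ)) }
    have hg : Function.Surjective g := hπ
    have hg' : IsNilpotent (RingHom.ker (g : E →+* κ)) := hn
    exact ⟨(Algebra.FormallySmooth.liftOfSurjective (AlgHom.id (ZMod p) κ) g hg hg').toRingHom,
      fun x => Algebra.FormallySmooth.liftOfSurjective_apply (AlgHom.id (ZMod p) κ) g hg hg' x⟩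
  · subst h
    have : CharZero κ := CharP.charP_to_charZero κ
    let q : ℚ →+* E := IsLocalization.lift (M := nonZeroDivisors ℤ) (g := Int.castRingHom E) (by
      intro y
      refine isUnit_of_ker π hπ hn ?_
      rw [eq_intCast, map_intCast]
      exact_mod_cast nonZeroDivisors.ne_zero y.2)
    let _ : Algebra ℚ E := q.toAlgebra
    have : Algebra.EssFiniteType ℚ κ := Algebra.EssFiniteType.of_comp ℤ ℚ κ
    let g : E →ₐ[ℚ] κ :=
      { π with
        commutes' := fun r => congrArg (fun u : ℚ →+* κ => u r)
          (Subsingleton.elim (π.comp (algebraMap ℚ E)) (algebraMap ℚ κ)) }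
    have hg : Function.Surjective g := hπ
    have hg' : IsNilpotent (RingHom.ker (g : E →+* κ)) := hn
    exact ⟨(Algebra.FormallySmooth.liftOfSurjective (AlgHom.id ℚ κ) g hg hg').toRingHom,
      fun x => Algebra.FormallySmooth.liftOfSurjective_apply (AlgHom.id ℚ κ) g hg hg' x⟩

end Pool.HR

end
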