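import Pool.Agent.H76.HR.Sec

/-!
The conormal sequence at the generic point of a closed subscheme of affine space over the integers
(MP_d037d4_ag).
-/

noncomputable section

namespace Pool.HR

open MvPolynomial

/-- The difference of two ring homomorphisms which agree modulo a square zero ideal is a
derivation. -/
theorem der_sum {n : ℕ} {E : Type} [CommRing E] (ι τ : MvPolynomial (Fin n) ℤ →+* E)
    (hm : ∀ f g, (ι f - τ f) * (ι g - τ g) = 0) (f : MvPolynomial (Fin n) ℤ) :
    ι f - τ f = ∑ j, ι (pderiv j f) * (ι (X j) - τ (X j)) := by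
  induction f using MvPolynomial.induction_on with
  | C a =>
    have h1 : ι (C a) = τ (C a) := by
      rw [eq_intCast (C : ℤ →+* MvPolynomial (Fin n) ℤ) a, map_intCast, map_intCast]
    rw [h1, sub_self]
    symm
    apply Finset.sum_eq_zero
    intro j _
    rw [pderiv_C, map_zero, zero_mul]
  | add f g hf hg =>
    have h1 : ι (f + g) - τ (f + g) = (ι f - τ f) + (ι g - τ g) := by
      rw [map_add, map_add]
      ring
    rw [h1, hf, hg, ← Finset.sum_add_distrib]
    apply Finset.sum_congr rfl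
    intro j _
    rw [map_add, map_add, add_mul]
  | mul_X f i hf =>
    have h1 : ι (f * X i) - τ (f * X i) =
        ι f * (ι (X i) - τ (X i)) + ι (X i) * (ι f - τ f) := by
      have h2 := hm f (X i)
      rw [map_mul, map_mul]
      linear_combination -h2
    rw [h1]
    have h3 : ∀ j, ι (pderiv j (f * X i)) * (ι (X j) - τ (X j)) =
        ι (X i) * (ι (pderiv j f) * (ι (X j) - τ (X j))) +
        (if j = i then ι f * (ι (X i) - τ (X i)) else 0) := by
      intro j
      rw [pderiv_mul, map_add, map_mul, map_mul]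
      by_cases h : j = i
      · subst h
        rw [pderiv_X_self, map_one, if_pos rfl]
        ring
      · rw [pderiv_X_of_ne (Ne.symm h), map_zero, if_neg h]
        ring
    rw [Finset.sum_congr rfl fun j _ => h3 j, Finset.sum_add_distrib, ← Finset.mul_sum, ← hf,
      Finset.sum_ite_eq' Finset.univ i, if_pos (Finset.mem_univ i)]
    ring

theorem ft_of_surj {n : ℕ} {Q : Type} [CommRing Q] (q : MvPolynomial (Fin n) ℤ →+* Q)
    (hq : Function.Surjective q) : Algebra.FiniteType ℤ Q := by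
  let f : MvPolynomial (Fin n) ℤ →ₐ[ℤ] Q :=
    { q with
      commutes' := fun r => congrArg (fun u : ℤ →+* Q => u r)
        (RingHom.ext_int (q.comp (algebraMap ℤ (MvPolynomial (Fin n) ℤ))) (algebraMap ℤ Q)) }
  exact Algebra.FiniteType.iff_quotient_mvPolynomial''.2 ⟨n, f, hq⟩

theorem star_local {n : ℕ} {Q : Type} [CommRing Q] (hft : Algebra.FiniteType ℤ Q) (K : Ideal Q)
    [hK : K.IsPrime] (hK2 : K ^ 2 = ⊥) (p : ℕ) (hp : (p : Q) = 0)
    (hc : ∀ m : ℕ, (m : Q) ∈ K ↔ p ∣ m) (q : MvPolynomial (Fin n) ℤ →+* Q) :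
    ∃ (b : Q) (u : Fin n → Q), b ∉ K ∧ (∀ j, u j ∈ K) ∧ ∀ x, q x ∈ K →
      ∃ c : Q, c ∉ K ∧ c * (b * q x - ∑ j, q (pderiv j x) * u j) = 0 := by
  have hker : RingHom.ker (IsLocalRing.residue (Localization.AtPrime K)) =
      K.map (algebraMap Q (Localization.AtPrime K)) := by
    rw [IsLocalRing.ker_residue, Localization.AtPrime.map_eq_maximalIdeal]
  have hsq : RingHom.ker (IsLocalRing.residue (Localization.AtPrime K)) ^ 2 = ⊥ := by
    rw [hker, ← Ideal.map_pow, hK2, Ideal.map_bot]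
  have hmemK : ∀ x : Q, IsLocalRing.residue (Localization.AtPrime K)
      (algebraMap Q (Localization.AtPrime K) x) = 0 ↔ x ∈ K := by
    intro x
    rw [IsLocalRing.residue_eq_zero_iff]
    exact IsLocalization.AtPrime.to_map_mem_maximal_iff _ K x
  have hpE : (p : Localization.AtPrime K) = 0 := by
    have h2 := congrArg (algebraMap Q (Localization.AtPrime K)) hp
    rwa [map_natCast, map_zero] at h2
  have hchar : CharP (IsLocalRing.ResidueField (Localization.AtPrime K)) p := by
    refine ⟨fun m => ?_⟩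
    rw [← hc, ← hmemK, map_natCast, map_natCast]
  have hess : @Algebra.EssFiniteType ℤ (IsLocalRing.ResidueField (Localization.AtPrime K)) _ _
      (Ring.toIntAlgebra _) := by
    have h1 : Algebra.EssFiniteType ℤ K.ResidueField :=
      Algebra.EssFiniteType.comp ℤ Q K.ResidueField
    convert h1 using 1
    exact Subsingleton.elim _ _
  obtain ⟨σ, hσ⟩ := sec (IsLocalRing.residue (Localization.AtPrime K))
    IsLocalRing.residue_surjective ⟨2, hsq⟩ p hpE
  obtain ⟨ι, hι⟩ : ∃ ι : MvPolynomial (Fin n) ℤ →+* Localization.AtPrime K,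
    ∀ x, ι x = algebraMap Q (Localization.AtPrime K) (q x) :=
    ⟨(algebraMap Q (Localization.AtPrime K)).comp q, fun _ => rfl⟩
  obtain ⟨τ, hτ⟩ : ∃ τ : MvPolynomial (Fin n) ℤ →+* Localization.AtPrime K,
    ∀ x, τ x = σ (IsLocalRing.residue (Localization.AtPrime K) (ι x)) :=
    ⟨σ.comp ((IsLocalRing.residue (Localization.AtPrime K)).comp ι), fun _ => rfl⟩
  have hmem : ∀ f, ι f - τ f ∈ RingHom.ker (IsLocalRing.residue (Localization.AtPrime K)) := by
    intro f
    rw [RingHom.mem_ker, map_sub, hτ, hσ, sub_self]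
  have hm : ∀ f g, (ι f - τ f) * (ι g - τ g) = 0 := by
    intro f g
    have h1 := Ideal.mul_mem_mul (hmem f) (hmem g)
    rw [← pow_two, hsq] at h1
    exact h1
  have hI' : ∀ a, q a ∈ K → ι a = ∑ j, ι (pderiv j a) * (ι (X j) - τ (X j)) := by
    intro a ha
    have h1 : τ a = 0 := by
      rw [hτ, hι, (hmemK (q a)).2 ha, map_zero]
    rw [← der_sum ι τ hm a, h1, sub_zero]
  obtain ⟨b, hb⟩ := IsLocalization.exist_integer_multiples_of_finite K.primeCompl
    (fun j : Fin n => ι (X j) - τ (X j))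
  choose u hu using hb
  refine ⟨b.1, u, b.2, fun j => ?_, fun x hx => ?_⟩
  · rw [← hmemK, hu, Algebra.smul_def, map_mul]
    have h1 : IsLocalRing.residue (Localization.AtPrime K) (ι (X j) - τ (X j)) = 0 := hmem (X j)
    rw [h1, mul_zero]
  · have h1 : algebraMap Q (Localization.AtPrime K)
        (b.1 * q x - ∑ j, q (pderiv j x) * u j) = 0 := by
      rw [map_sub, map_mul, ← hι, hI' x hx, map_sum, Finset.mul_sum, ← Finset.sum_sub_distrib]
      apply Finset.sum_eq_zero
      intro j _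
      rw [map_mul, hu, Algebra.smul_def, ← hι]
      ring
    obtain ⟨⟨c, hc⟩, hc1⟩ := (IsLocalization.map_eq_zero_iff K.primeCompl _ _).1 h1
    exact ⟨c, hc, hc1⟩

/-- At the generic point of a closed subscheme of affine space, the conormal sequence has a
retraction. -/
theorem star {n : ℕ} (I : Ideal (MvPolynomial (Fin n) ℤ)) [hI : I.IsPrime] :
    ∃ (p : ℕ) (h : MvPolynomial (Fin n) ℤ) (B : Fin n → MvPolynomial (Fin n) ℤ),
      (p = 0 ∨ p.Prime) ∧ (p : MvPolynomial (Fin n) ℤ) ∈ I ∧ h ∉ I ∧ (∀ j, B j ∈ I) ∧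
      ∀ a ∈ I, h * a - ∑ j, pderiv j a * B j ∈
        I ^ 2 ⊔ Ideal.span {(p : MvPolynomial (Fin n) ℤ)} := by
  classical
  obtain ⟨p, hp⟩ := CharP.exists (MvPolynomial (Fin n) ℤ ⧸ I)
  have hpI : (p : MvPolynomial (Fin n) ℤ) ∈ I := by
    rw [← Ideal.Quotient.eq_zero_iff_mem, map_natCast]
    exact CharP.cast_eq_zero _ _
  obtain ⟨J, hJ⟩ : ∃ J : Ideal (MvPolynomial (Fin n) ℤ),
    J = I ^ 2 ⊔ Ideal.span {(p : MvPolynomial (Fin n) ℤ)} := ⟨_, rfl⟩
  have hJI : J ≤ I := by
    rw [hJ]
    refine sup_le (Ideal.pow_le_self two_ne_zero) ?_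
    rw [Ideal.span_singleton_le_iff_mem]
    exact hpI
  have hq : Function.Surjective (Ideal.Quotient.mk J) := Ideal.Quotient.mk_surjective
  have hK : (I.map (Ideal.Quotient.mk J)).IsPrime := Ideal.map_isPrime_of_surjective hq (by
    rw [Ideal.mk_ker]
    exact hJI)
  have hKm : ∀ x, Ideal.Quotient.mk J x ∈ I.map (Ideal.Quotient.mk J) ↔ x ∈ I := by
    intro x
    have h1 : (I.map (Ideal.Quotient.mk J)).comap (Ideal.Quotient.mk J) = I := by
      rw [Ideal.comap_map_of_surjective _ hq]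
      refine sup_eq_left.2 ?_
      change RingHom.ker (Ideal.Quotient.mk J) ≤ I
      rw [Ideal.mk_ker]
      exact hJI
    conv_rhs => rw [← h1]
    rfl
  obtain ⟨b, u, hb, hu, hx⟩ := star_local (ft_of_surj _ hq) (I.map (Ideal.Quotient.mk J)) (by
      rw [← Ideal.map_pow, Ideal.map_eq_bot_iff_le_ker, Ideal.mk_ker, hJ]
      exact le_sup_left) p (by
      rw [← map_natCast (Ideal.Quotient.mk J), Ideal.Quotient.eq_zero_iff_mem, hJ]
      exact Ideal.mem_sup_right (Ideal.mem_span_singleton_self _)) (by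
      intro m
      rw [← map_natCast (Ideal.Quotient.mk J), hKm, ← Ideal.Quotient.eq_zero_iff_mem, map_natCast]
      exact CharP.cast_eq_zero_iff _ p m) (Ideal.Quotient.mk J)
  obtain ⟨h0, rfl⟩ := hq b
  choose B0 hB0 using fun j => hq (u j)
  have hh0I : h0 ∉ I := fun h1 => hb ((hKm _).2 h1)
  have hB0I : ∀ j, B0 j ∈ I := fun j => by
    rw [← hKm, hB0]
    exact hu j
  have hs : ∀ a ∈ I, ∃ s, s ∉ I ∧ s * (h0 * a - ∑ j, pderiv j a * B0 j) ∈ J := by
    intro a ha
    obtain ⟨c, hc, hc1⟩ := hx a ((hKm _).2 ha)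
    obtain ⟨s, rfl⟩ := hq c
    refine ⟨s, fun h2 => hc ((hKm s).2 h2), ?_⟩
    rw [← Ideal.Quotient.eq_zero_iff_mem, map_mul, map_sub, map_mul, map_sum]
    rw [← hc1]
    congr 2
    apply Finset.sum_congr rfl
    intro j _
    rw [map_mul, hB0]
  obtain ⟨G, hG⟩ := (isNoetherianRing_iff_ideal_fg (MvPolynomial (Fin n) ℤ)).1 inferInstance I
  have hGI : ∀ g ∈ G, g ∈ I := fun g hg => by
    rw [← hG]
    exact Ideal.subset_span hg
  have hs' : ∀ g : G, ∃ s, s ∉ I ∧ s * (h0 * g.1 - ∑ j, pderiv j g.1 * B0 j) ∈ J :=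
    fun g => hs g.1 (hGI g.1 g.2)
  choose s hs1 hs2 using hs'
  obtain ⟨S, hSdef⟩ : ∃ S, S = ∏ g : G, s g := ⟨_, rfl⟩
  have hS : S ∉ I := by
    intro h1
    rw [hSdef] at h1
    obtain ⟨g, _, hg⟩ := (Ideal.IsPrime.prod_mem_iff).1 h1
    exact hs1 g hg
  have key : ∀ a ∈ I, S * (h0 * a - ∑ j, pderiv j a * B0 j) ∈ J := by
    intro a ha
    rw [← hG] at ha
    refine Submodule.span_induction (p := fun a _ => S * (h0 * a - ∑ j, pderiv j a * B0 j) ∈ J)
      ?_ ?_ ?_ ?_ ha
    · intro g hg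
      have h1 : S = (∏ i ∈ Finset.univ.erase (⟨g, hg⟩ : G), s i) * s ⟨g, hg⟩ := by
        rw [hSdef]
        exact (Finset.prod_erase_mul Finset.univ s (Finset.mem_univ _)).symm
      rw [h1, mul_assoc]
      exact Ideal.mul_mem_left _ _ (hs2 ⟨g, hg⟩)
    · simp
    · intro x y _ _ hx hy
      have h1 : S * (h0 * (x + y) - ∑ j, pderiv j (x + y) * B0 j) =
          S * (h0 * x - ∑ j, pderiv j x * B0 j) + S * (h0 * y - ∑ j, pderiv j y * B0 j) := by
        simp only [map_add, add_mul, Finset.sum_add_distrib]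
        ring
      rw [h1]
      exact J.add_mem hx hy
    · intro r x hx1 hx
      have h1 : S * (h0 * (r • x) - ∑ j, pderiv j (r • x) * B0 j) =
          r * (S * (h0 * x - ∑ j, pderiv j x * B0 j)) -
            S * (x * ∑ j, pderiv j r * B0 j) := by
        have h2 : ∀ j, pderiv j (r • x) * B0 j =
            r * (pderiv j x * B0 j) + x * (pderiv j r * B0 j) := by
          intro j
          rw [smul_eq_mul, pderiv_mul]
          ring
        rw [Finset.sum_congr rfl fun j _ => h2 j, Finset.sum_add_distrib, ← Finset.mul_sum,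
          ← Finset.mul_sum, smul_eq_mul]
        ring
      rw [h1]
      refine J.sub_mem (J.mul_mem_left _ hx) (J.mul_mem_left _ ?_)
      rw [hJ]
      refine Ideal.mem_sup_left ?_
      rw [pow_two]
      refine Ideal.mul_mem_mul ?_ (Ideal.sum_mem _ fun j _ => Ideal.mul_mem_left _ _ (hB0I j))
      rw [← hG]
      exact hx1
  refine ⟨p, S * h0, fun j => S * B0 j, ?_, hpI, ?_, fun j => Ideal.mul_mem_left _ _ (hB0I j),
    fun a ha => ?_⟩
  · have : IsDomain (MvPolynomial (Fin n) ℤ ⧸ I) := Ideal.Quotient.isDomain I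
    rcases CharP.char_is_prime_or_zero (MvPolynomial (Fin n) ℤ ⧸ I) p with h | h
    · exact Or.inr h
    · exact Or.inl h
  · intro h1
    rcases hI.mem_or_mem h1 with h2 | h2
    · exact hS h2
    · exact hh0I h2
  · have h1 : S * h0 * a - ∑ j, pderiv j a * (S * B0 j) =
        S * (h0 * a - ∑ j, pderiv j a * B0 j) := by
      rw [mul_sub, Finset.mul_sum]
      congr 1
      · ring
      · apply Finset.sum_congr rfl
        intro j _
        ring
    rw [h1, ← hJ]
    exact key a ha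

end Pool.HR

end
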