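import Pool.Agent.H76.HR.Sch
import Pool.Agent.H87.HR.Flat

/-!
Weight-monodromy in families outside finitely many pairs `(p, e)` (MP_d037d4_ag).
-/

noncomputable section

namespace Pool.HR

open CategoryTheory CategoryTheory.Limits AlgebraicGeometry Pool.H9.WMC Pool.H9.AK

/-- The fibre at a point and the generic fibre of the model at an extension of the point. -/
theorem gen_iso {S X : Scheme.{0}} (f : X ⟶ S) [Flat f] [IsProper f] {L : LF}
    (σ : L.SO ⟶ S) (h : (Mod.of f σ).GenSmooth) (h' : Smooth (pullback.snd f (L.gen ≫ σ))) :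
    ((Mod.of f σ).gen h).Iso (fibreK f (L.gen ≫ σ) h') :=
  ⟨pullbackLeftPullbackSndIso f σ L.gen, pullbackLeftPullbackSndIso_hom_snd f σ L.gen⟩

theorem gen_smooth {S X : Scheme.{0}} (f : X ⟶ S) [Flat f] [IsProper f] {L : LF}
    (σ : L.SO ⟶ S) (h : (Mod.of f σ).GenSmooth) :
    Smooth (pullback.snd f (L.gen ≫ σ)) := by
  have h1 : (pullbackLeftPullbackSndIso f σ L.gen).inv ≫
      pullback.snd (pullback.snd f σ) L.gen = pullback.snd f (L.gen ≫ σ) :=
    pullbackLeftPullbackSndIso_inv_snd_snd f σ L.gen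
  rw [← h1]
  have h2 : Smooth (pullback.snd (pullback.snd f σ) L.gen) := h
  infer_instance

/-- The smooth fibres in a family, for large residue characteristic or large ramification index. -/
theorem union {Ω : Type} [Field Ω] [CharZero Ω] [IsAlgClosed Ω] (T : Theory Ω)
    (hT : HyodoKato T) {S X : Scheme.{0}} (f : X ⟶ S) [Flat f] [IsProper f]
    (g : S ⟶ Spec (CommRingCat.of ℤ)) [CompactSpace S] [LocallyOfFiniteType g] :
    ∃ B e : ℕ, 0 < B ∧ ∀ L : LF, CharZero L.K →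
      ∀ (s : L.SK ⟶ S) (h : Smooth (pullback.snd f s)),
      (¬ L.p ∣ B ∨ L.Ram e ∧ SemistableAt f s) →
      (∀ i : ℕ, (T.H L (fibreK f s h) i).WM i) ∧ Twinned T f L (fibreK f s h) := by
  obtain ⟨B, hB, hB1⟩ := Pool.H87.HR.ak_flat T f g
  obtain ⟨e, he⟩ := hr T hT f g
  refine ⟨B, e, hB, fun L h0 s h hc => ?_⟩
  rcases hc with hc | ⟨hp, σ, rfl, hσ⟩
  · exact hB1 L h0 hc s h
  · obtain ⟨h1, h2, s', h3, _, h4⟩ := he L hp σ hσ
    have e1 := gen_iso f σ h1 h
    have e2 := gen_iso f s' h3 (gen_smooth f s' h3)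
    have h5 : ∀ i : ℕ, FN.Sim (T.H L (fibreK f (L.gen ≫ σ) h) i)
        (T.H (LF.pow L.k) (fibreK f ((LF.pow L.k).gen ≫ s') (gen_smooth f s' h3)) i) := fun i =>
      ((T.iso L _ _ e1.symm i).trans (h4 i)).trans (T.iso _ _ _ e2 i)
    refine ⟨fun i => ?_, L.k, inferInstance, inferInstance, (LF.pow L.k).gen ≫ s',
      gen_smooth f s' h3, rfl, h5⟩
    exact (T.iso L _ _ e1.symm i).wm L.one_lt_q L.one_lt_q (h2 i)

end Pool.HR

end
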